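import Mathlib
import Pool.Agent.Helper99.KConvProof

set_option autoImplicit false

namespace Pool.Agent.Results.MP_1453e0_an.NotEquivalent

open Pool.Agent.Helper99.KConv

/-- For every `C > 0` there are `n` and a symmetric convex body `K` in `ℝ^n` whose K-convexity
constant is larger than `C` times `MM^*(K)`. -/
theorem result : ∀ C : ℝ, 0 < C →
    ∃ (n : ℕ) (K : Set (EuclideanSpace ℝ (Fin n))), IsSymmetricConvexBody K ∧
      ENNReal.ofReal (C * MMstar K) < KConvexityConstant K :=
  exists_bad

end Pool.Agent.Results.MP_1453e0_an.NotEquivalent
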